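import Pool.Agent.H93.FFB.Sound
import Pool.Agent.H93.FFB.Data

/-!
# MP_ffb5eb: no drawing of `G` has all 20 crossings
-/

set_option autoImplicit false

namespace Pool.FFB

open Pool.Agent.H26.RUP

variable {P : Pat} {K : ℕ}

theorem pr_sound (hK : Kn P K) {e p n f r s : ℕ} (he : e < 11) (hp : p < 11) (hn : n < 11)
    (hf : f < 11) (hr : r < 11) (hs : s < 11) (h1 : M P e p) (h2 : M P e n) (h3 : M P f r)
    (h4 : M P f s) (h : pr K e p n f r s = true) :
    (e = f → Lss (P.pos e p) (P.pos e n) (P.pos f r) (P.pos f s) ∨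
      Lss (P.pos f r) (P.pos f s) (P.pos e p) (P.pos e n)) ∧
    (e ≠ f → ¬ Dj e f → (P.pos e f ≠ P.pos e p ∧ P.pos e f ≠ P.pos e n) ∨
      (P.pos f e ≠ P.pos f r ∧ P.pos f e ≠ P.pos f s)) ∧
    tm P.X P.pos e p n f r s = tv K e p n f r s := by
  unfold pr at h
  rw [Bool.and_eq_true] at h
  obtain ⟨ha, hb⟩ := h
  refine ⟨?_, ?_, ?_⟩
  · rintro rfl
    have hbe : Nat.beq e e = true := Nat.beq_refl e
    rw [hbe, cond_true, Bool.or_eq_true] at ha
    rcases ha with ha | ha
    · exact Or.inl (ls_sound hK he hp hn hr hs h1 h2 h3 h4 ha)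
    · exact Or.inr (ls_sound hK he hr hs hp hn h3 h4 h1 h2 ha)
  · intro hef hD
    have hbe : Nat.beq e f = false := by
      cases hb' : Nat.beq e f with
      | false => rfl
      | true => exact absurd (Nat.eq_of_beq_eq_true hb') hef
    have hd : dj e f = false := by
      cases hb' : dj e f with
      | false => rfl
      | true => exact absurd ((tab1 e he f hf).1.1 hb') hD
    have hD' : ¬ Dj f e := fun h => hD ⟨h.1.symm, h.2.2.1.symm, h.2.1.symm, h.2.2.2.symm⟩
    have hd' : dj f e = false := by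
      cases hb' : dj f e with
      | false => rfl
      | true => exact absurd ((tab1 f hf e he).1.1 hb') hD'
    rw [hbe, cond_false, hd, Bool.false_or, Bool.or_eq_true] at ha
    rcases ha with ha | ha
    · exact Or.inl (nt_sound he hp hn hf h1 h2 hef hd ha)
    · exact Or.inr (nt_sound hf hr hs he h3 h4 hef.symm hd' ha)
  · exact tv_sound hK he hp hn hf hr hs h1 h2 h3 h4 (Nat.le_of_ble_eq_true hb)

theorem wk_sound (hK : Kn P K) {a b c : ℕ} (h : wk K a b c = true) :
    (a < 11 ∧ b < 11 ∧ c < 11) ∧ (M P a b ∧ M P b c ∧ M P c a) ∧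
    (M P b a ∧ M P c b ∧ M P a c) ∧ (P.pos a c ≠ P.pos a b ∧ P.pos b a ≠ P.pos b c ∧
      P.pos c b ≠ P.pos c a) := by
  unfold wk at h
  simp only [Bool.and_eq_true, Nat.blt_eq] at h
  obtain ⟨⟨⟨⟨⟨⟨⟨⟨⟨⟨⟨ha, hb⟩, hc⟩, k1⟩, k2⟩, k3⟩, k4⟩, k5⟩, k6⟩, p1⟩, p2⟩, p3⟩ := h
  have m1 := km_sound hK ha hb k1
  have m2 := km_sound hK hb hc k2
  have m3 := km_sound hK hc ha k3
  have m4 := km_sound hK hb ha k4
  have m5 := km_sound hK hc hb k5
  have m6 := km_sound hK ha hc k6
  exact ⟨⟨ha, hb, hc⟩, ⟨m1, m2, m3⟩, ⟨m4, m5, m6⟩, pc_sound ha hc hb m6 m1 p1,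
    pc_sound hb ha hc m4 m2 p2, pc_sound hc hb ha m5 m3 p3⟩

theorem inj3 {a b c : ℕ} (h1 : a ≠ b) (h2 : b ≠ c) (h3 : c ≠ a) :
    Function.Injective ![a, b, c] := by
  intro i j hij
  fin_cases i <;> fin_cases j <;> simp at hij ⊢ <;> omega

theorem ck_sound (hK : Kn P K) {a b c d e f : ℕ} (h : ck K a b c d e f = true) : False := by
  unfold ck at h
  simp only [Bool.and_eq_true] at h
  obtain ⟨⟨⟨⟨⟨hw, hw'⟩, ⟨q1, q2⟩, q3⟩, ⟨q4, q5⟩, q6⟩, ⟨q7, q8⟩, q9⟩, hpar⟩ := h
  obtain ⟨⟨ha, hb, hc⟩, ⟨mab, mbc, mca⟩, ⟨mba, mcb, mac⟩, n1, n2, n3⟩ := wk_sound hK hw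
  obtain ⟨⟨hd, he, hf⟩, ⟨mde, mef, mfd⟩, ⟨med, mfe, mdf⟩, n4, n5, n6⟩ := wk_sound hK hw'
  have r1 := pr_sound hK ha hc hb hd hf he mac mab mdf mde q1
  have r2 := pr_sound hK ha hc hb he hd hf mac mab med mef q2
  have r3 := pr_sound hK ha hc hb hf he hd mac mab mfe mfd q3
  have r4 := pr_sound hK hb ha hc hd hf he mba mbc mdf mde q4
  have r5 := pr_sound hK hb ha hc he hd hf mba mbc med mef q5
  have r6 := pr_sound hK hb ha hc hf he hd mba mbc mfe mfd q6
  have r7 := pr_sound hK hc hb ha hd hf he mcb mca mdf mde q7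
  have r8 := pr_sound hK hc hb ha he hd hf mcb mca med mef q8
  have r9 := pr_sound hK hc hb ha hf he hd mcb mca mfe mfd q9
  have key := P.par ![a, b, c] ![d, e, f]
    (by intro i; fin_cases i; exacts [ha, hb, hc])
    (by intro i; fin_cases i; exacts [hd, he, hf])
    (inj3 mab.1 mbc.1 mca.1) (inj3 mde.1 mef.1 mfd.1)
    (by intro i; fin_cases i; exacts [mab.2, mbc.2, mca.2])
    (by intro i; fin_cases i; exacts [mde.2, mef.2, mfd.2])
    (by intro i; fin_cases i; exacts [n1, n2, n3])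
    (by intro i; fin_cases i; exacts [n4, n5, n6])
    (by intro i j; fin_cases i <;> fin_cases j
        exacts [r1.1, r2.1, r3.1, r4.1, r5.1, r6.1, r7.1, r8.1, r9.1])
    (by intro i j; fin_cases i <;> fin_cases j
        exacts [r1.2.1, r2.2.1, r3.2.1, r4.2.1, r5.2.1, r6.2.1, r7.2.1, r8.2.1, r9.2.1])
  rw [Fin.sum_univ_three, Fin.sum_univ_three, Fin.sum_univ_three, Fin.sum_univ_three] at key
  change Even (tm P.X P.pos a c b d f e + tm P.X P.pos a c b e d f + tm P.X P.pos a c b f e d +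
    (tm P.X P.pos b a c d f e + tm P.X P.pos b a c e d f + tm P.X P.pos b a c f e d) +
    (tm P.X P.pos c b a d f e + tm P.X P.pos c b a e d f + tm P.X P.pos c b a f e d)) at key
  rw [r1.2.2, r2.2.2, r3.2.2, r4.2.2, r5.2.2, r6.2.2, r7.2.2, r8.2.2, r9.2.2] at key
  have h1 := Nat.eq_of_beq_eq_true hpar
  rw [Nat.even_iff] at key
  omega

theorem kn_of_not_cl (hreq : ∀ q ∈ req, P.X q.1 q.2) {C : ℕ} (h : ¬ Cl 224 (val P) C) :
    Kn P (Nat.lor C rqm) := by
  intro v hv
  have hnot : ∀ l, l < 448 → C.testBit l = true → ¬ Lit 224 (val P) l := by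
    intro l hl hb hL
    exact h ⟨l, by omega, hb, hL⟩
  constructor
  · intro hb hval
    rw [tb_eq] at hb
    change (C ||| rqm).testBit v = true at hb
    rw [Nat.testBit_or, Bool.or_eq_true] at hb
    rcases hb with hb | hb
    · exact hnot v (by omega) hb (Or.inl ⟨hv, hval⟩)
    · rw [← tb_eq] at hb
      have := (tab4 v (by omega) hb).1
      omega
  · intro hb
    rw [tb_eq] at hb
    change (C ||| rqm).testBit (224 + v) = true at hb
    rw [Nat.testBit_or, Bool.or_eq_true] at hb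
    rcases hb with hb | hb
    · by_contra hval
      refine hnot (224 + v) (by omega) hb (Or.inr ⟨by omega, ?_⟩)
      rw [Nat.add_sub_cancel_left]
      exact hval
    · rw [← tb_eq] at hb
      obtain ⟨_, h2, h3⟩ := tab4 (224 + v) (by omega) hb
      rw [Nat.add_sub_cancel_left] at h2 h3
      unfold val
      rw [if_pos h2]
      exact hreq _ h3

/-- the six edges of a pair of walks -/
def ckk (x : ℕ × ℕ) : Bool :=
  ck (Nat.lor x.1 rqm) (x.2 % 16) (x.2 / 16 % 16) (x.2 / 256 % 16) (x.2 / 4096 % 16)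
    (x.2 / 65536 % 16) (x.2 / 1048576 % 16)

theorem ckk_sound (hreq : ∀ q ∈ req, P.X q.1 q.2) {x : ℕ × ℕ} (h : ckk x = true) :
    Cl 224 (val P) x.1 := by
  by_contra hc
  exact ck_sound (kn_of_not_cl hreq hc) h

/-- the literal: `f` before `g` on `e` -/
def nb (e f g : ℕ) : ℕ := cond (Nat.blt f g) (oi e f g) (224 + oi e g f)

/-- `f` before `g` on `e` -/
def Bf (P : Pat) (e f g : ℕ) : Prop :=
  P.pos e f < P.pos e g ∨ (P.pos e f = P.pos e g ∧ f < g)

theorem lit_nb {e f g : ℕ} (he : e < 11) (hf : f < 11) (hg : g < 11) (h1 : dj e f = true)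
    (h2 : dj e g = true) (hfg : f ≠ g) :
    nb e f g < 448 ∧ (Lit 224 (val P) (nb e f g) ↔ Bf P e f g) := by
  unfold nb
  cases hb : Nat.blt f g with
  | true =>
    have hlt : f < g := by simpa [Nat.blt_eq] using hb
    obtain ⟨a, b, c, d⟩ := tab3 e he f hf g hg h1 h2 hlt
    rw [cond_true]
    refine ⟨by omega, ?_⟩
    have hv : val P (oi e f g) ↔ P.pos e f ≤ P.pos e g := by
      unfold val
      rw [d, if_neg (by omega), b, c]
    unfold Lit Bf
    constructor
    · rintro (⟨_, h⟩ | ⟨h, _⟩)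
      · rcases lt_or_eq_of_le (hv.1 h) with h' | h'
        · exact Or.inl h'
        · exact Or.inr ⟨h', hlt⟩
      · omega
    · rintro (h | ⟨h, _⟩)
      · exact Or.inl ⟨a, hv.2 h.le⟩
      · exact Or.inl ⟨a, hv.2 h.le⟩
  | false =>
    have hlt : g < f := by
      have : ¬ f < g := by
        intro hh
        rw [← Nat.blt_eq, hb] at hh
        exact Bool.false_ne_true hh
      omega
    obtain ⟨a, b, c, d⟩ := tab3 e he g hg f hf h2 h1 hlt
    rw [cond_false]
    refine ⟨by omega, ?_⟩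
    have hv : val P (oi e g f) ↔ P.pos e g ≤ P.pos e f := by
      unfold val
      rw [d, if_neg (by omega), b, c]
    unfold Lit Bf
    rw [Nat.add_sub_cancel_left, hv, not_le]
    constructor
    · rintro (⟨h, _⟩ | ⟨_, h⟩)
      · omega
      · exact Or.inl h
    · rintro (h | ⟨_, h⟩)
      · exact Or.inr ⟨by omega, h⟩
      · omega

/-- the transitivity clause -/
def tmk (e f g h : ℕ) : ℕ :=
  Nat.lor (Nat.lor (Nat.shiftLeft 1 (nb e g f)) (Nat.shiftLeft 1 (nb e h g)))
    (Nat.shiftLeft 1 (nb e f h))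

def tk (C e f g h : ℕ) : Bool :=
  Nat.blt e 11 && Nat.blt f 11 && Nat.blt g 11 && Nat.blt h 11 && dj e f && dj e g && dj e h &&
    !Nat.beq f g && !Nat.beq g h && !Nat.beq f h && Nat.beq C (tmk e f g h)

theorem bit_shift (l : ℕ) : (Nat.shiftLeft 1 l).testBit l = true := by
  change (1 <<< l).testBit l = true
  rw [Nat.testBit_shiftLeft]
  simp

theorem tk_sound {C e f g h : ℕ} (hk : tk C e f g h = true) : Cl 224 (val P) C := by
  unfold tk at hk
  simp only [Bool.and_eq_true, Nat.blt_eq, Bool.not_eq_true'] at hk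
  obtain ⟨⟨⟨⟨⟨⟨⟨⟨⟨⟨he, hf⟩, hg⟩, hh⟩, d1⟩, d2⟩, d3⟩, n1⟩, n2⟩, n3⟩, hC⟩ := hk
  have hC' : C = tmk e f g h := Nat.eq_of_beq_eq_true hC
  have m1 : f ≠ g := by
    rintro rfl
    rw [Nat.beq_refl] at n1
    exact absurd n1 (by simp)
  have m2 : g ≠ h := by
    rintro rfl
    rw [Nat.beq_refl] at n2
    exact absurd n2 (by simp)
  have m3 : f ≠ h := by
    rintro rfl
    rw [Nat.beq_refl] at n3
    exact absurd n3 (by simp)
  have b1 : C.testBit (nb e g f) = true := by
    rw [hC']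
    unfold tmk
    change (((Nat.shiftLeft 1 (nb e g f)) ||| (Nat.shiftLeft 1 (nb e h g))) |||
      (Nat.shiftLeft 1 (nb e f h))).testBit _ = true
    rw [Nat.testBit_or, Nat.testBit_or, bit_shift]
    simp
  have b2 : C.testBit (nb e h g) = true := by
    rw [hC']
    unfold tmk
    change (((Nat.shiftLeft 1 (nb e g f)) ||| (Nat.shiftLeft 1 (nb e h g))) |||
      (Nat.shiftLeft 1 (nb e f h))).testBit _ = true
    rw [Nat.testBit_or, Nat.testBit_or, bit_shift]
    simp
  have b3 : C.testBit (nb e f h) = true := by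
    rw [hC']
    unfold tmk
    change (((Nat.shiftLeft 1 (nb e g f)) ||| (Nat.shiftLeft 1 (nb e h g))) |||
      (Nat.shiftLeft 1 (nb e f h))).testBit _ = true
    rw [Nat.testBit_or, Nat.testBit_or, bit_shift]
    simp
  have l1 := lit_nb (P := P) he hg hf d2 d1 m1.symm
  have l2 := lit_nb (P := P) he hh hg d3 d2 m2.symm
  have l3 := lit_nb (P := P) he hf hh d1 d3 m3
  by_cases c1 : Bf P e g f
  · exact ⟨_, by omega, b1, l1.2.2 c1⟩
  by_cases c2 : Bf P e h g
  · exact ⟨_, by omega, b2, l2.2.2 c2⟩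
  refine ⟨_, by omega, b3, l3.2.2 ?_⟩
  unfold Bf at c1 c2 ⊢
  push Not at c1 c2
  obtain ⟨c1, c1'⟩ := c1
  obtain ⟨c2, c2'⟩ := c2
  rcases lt_or_eq_of_le (c1.trans c2) with h' | h'
  · exact Or.inl h'
  · right
    refine ⟨h', ?_⟩
    have e1 : P.pos e g = P.pos e f := le_antisymm (by rw [h']; exact c2) c1
    have e2 : P.pos e h = P.pos e g := by rw [e1]; exact h'.symm
    have i1 := c1' e1
    have i2 := c2' e2
    omega

def tkk (x : ℕ × ℕ) : Bool :=
  tk x.1 (x.2 % 16) (x.2 / 16 % 16) (x.2 / 256 % 16) (x.2 / 4096 % 16)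

/-- all elements satisfy `p` -/
def allb (p : ℕ × ℕ → Bool) : List (ℕ × ℕ) → Bool
  | [] => true
  | x :: l => cond (p x) (allb p l) false

theorem allb_sound {p : ℕ × ℕ → Bool} : ∀ {l : List (ℕ × ℕ)}, allb p l = true → ∀ x ∈ l, p x = true
  | [], _, x, hx => absurd hx (List.not_mem_nil)
  | y :: l, h, x, hx => by
    unfold allb at h
    cases hy : p y with
    | false => rw [hy, cond_false] at h; exact absurd h (by simp)
    | true =>
      rw [hy, cond_true] at h
      rcases List.mem_cons.1 hx with rfl | hx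
      · exact hy
      · exact allb_sound h x hx

theorem chk_lems : allb ckk lems = true := by
  decide +kernel

theorem chk_trs : allb tkk trs = true := by
  decide +kernel

theorem chk_pf : check 224 (2 ^ 224) (lems.map Prod.fst ++ trs.map Prod.fst) pf = true := by
  decide +kernel

theorem t20 : T20 := by
  intro P hreq
  refine check_sound rfl chk_pf (val P) ?_
  intro C hC
  rw [List.mem_append, List.mem_map, List.mem_map] at hC
  rcases hC with ⟨x, hx, rfl⟩ | ⟨x, hx, rfl⟩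
  · exact ckk_sound hreq (allb_sound chk_lems x hx)
  · exact tk_sound (allb_sound chk_trs x hx)

end Pool.FFB
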