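import Pool.Agent.H93.FFB.T20
import Pool.Agent.H96.JCT.Stmts
import Pool.Agent.H57.RED.Stmts

/-!
# MP_ffb5eb: from drawings to patterns
-/

set_option autoImplicit false

namespace Pool.FFB

open Set Pool.JCT

/-- A parametrisation of a simple curve. -/
theorem param {X : Set (ℝ × ℝ)} {p q : ℝ × ℝ} (h : MCR.SimpleCurve X p q) :
    ∃ f : ℝ → ℝ × ℝ, Continuous f ∧ f 0 = p ∧ f 1 = q ∧ InjOn f (Icc 0 1) ∧
      (∀ x ∈ Icc (0 : ℝ) 1, f x ∈ X) ∧ ∀ z ∈ X, ∃ x ∈ Icc (0 : ℝ) 1, f x = z := by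
  obtain ⟨γ, hinj, hr⟩ := h
  refine ⟨γ.extend, γ.continuous_extend, γ.extend_zero, γ.extend_one, ?_, ?_, ?_⟩
  · intro x hx y hy hxy
    rw [γ.extend_apply hx, γ.extend_apply hy] at hxy
    exact congrArg Subtype.val (hinj hxy)
  · intro x hx
    rw [γ.extend_apply hx, ← hr]
    exact ⟨_, rfl⟩
  · intro z hz
    rw [← hr] at hz
    obtain ⟨x, hx⟩ := hz
    exact ⟨x.1, x.2, by rw [γ.extend_apply x.2]; exact hx⟩

/-- the edge number `e` -/
def E {V : Type} (ψ : ℕ → V) (e : ℕ) : Sym2 V := s(ψ (st e), ψ (en e))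

/-- parametrisations of the edges and parameters of the common points -/
structure Dat {V : Type} {G : SimpleGraph V} (D : Pool.MCR.Drawing G) (ψ : ℕ → V)
    (γ : ℕ → ℝ → ℝ × ℝ) (pos : ℕ → ℕ → ℝ) : Prop where
  inj8 : ∀ i < 8, ∀ j < 8, ψ i = ψ j → i = j
  adj : ∀ e < 11, G.Adj (ψ (st e)) (ψ (en e))
  cont : ∀ e < 11, Continuous (γ e)
  zero : ∀ e < 11, γ e 0 = D.pos (ψ (st e))
  one : ∀ e < 11, γ e 1 = D.pos (ψ (en e))
  injO : ∀ e < 11, InjOn (γ e) (Icc 0 1)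
  mem : ∀ e < 11, ∀ t ∈ Icc (0 : ℝ) 1, γ e t ∈ D.arc (E ψ e)
  surj : ∀ e < 11, ∀ z ∈ D.arc (E ψ e), ∃ t ∈ Icc (0 : ℝ) 1, γ e t = z
  ps : ∀ e < 11, ∀ f < 11, e ≠ f → ∀ z, z ∈ D.arc (E ψ e) → z ∈ D.arc (E ψ f) →
    pos e f ∈ Icc (0 : ℝ) 1 ∧ γ e (pos e f) = z

theorem st_lt : ∀ e < 11, st e < 8 ∧ en e < 8 := by decide

theorem edge_ne : ∀ e < 11, ∀ f < 11,
    ((st e = st f ∧ en e = en f) ∨ (st e = en f ∧ en e = st f)) → e = f := by decide

theorem E_ne' {V : Type} {ψ : ℕ → V} (h8 : ∀ i < 8, ∀ j < 8, ψ i = ψ j → i = j) {e f : ℕ}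
    (he : e < 11) (hf : f < 11) (hne : e ≠ f) : E ψ e ≠ E ψ f := by
  intro h
  unfold E at h
  rw [Sym2.eq_iff] at h
  refine hne (edge_ne e he f hf ?_)
  rcases h with ⟨h1, h2⟩ | ⟨h1, h2⟩
  · exact Or.inl ⟨h8 _ (st_lt e he).1 _ (st_lt f hf).1 h1, h8 _ (st_lt e he).2 _ (st_lt f hf).2 h2⟩
  · exact Or.inr ⟨h8 _ (st_lt e he).1 _ (st_lt f hf).2 h1, h8 _ (st_lt e he).2 _ (st_lt f hf).1 h2⟩

theorem dat_exists {V : Type} {G : SimpleGraph V} (D : Pool.MCR.Drawing G) (ψ : ℕ → V)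
    (h8 : ∀ i < 8, ∀ j < 8, ψ i = ψ j → i = j) (hadj : ∀ e < 11, G.Adj (ψ (st e)) (ψ (en e))) :
    ∃ γ pos, Dat D ψ γ pos := by
  classical
  have h1 : ∀ e : ℕ, ∃ f : ℝ → ℝ × ℝ, e < 11 → Continuous f ∧ f 0 = D.pos (ψ (st e)) ∧
      f 1 = D.pos (ψ (en e)) ∧ InjOn f (Icc 0 1) ∧
      (∀ x ∈ Icc (0 : ℝ) 1, f x ∈ D.arc (E ψ e)) ∧
      ∀ z ∈ D.arc (E ψ e), ∃ x ∈ Icc (0 : ℝ) 1, f x = z := by
    intro e
    by_cases he : e < 11
    · obtain ⟨f, hf⟩ := param (D.arc_curve _ _ (hadj e he))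
      exact ⟨f, fun _ => hf⟩
    · exact ⟨fun _ => 0, fun h => absurd h he⟩
  choose γ hγ using h1
  have h2 : ∀ e f : ℕ, ∃ t : ℝ, e < 11 → f < 11 → e ≠ f → ∀ z, z ∈ D.arc (E ψ e) →
      z ∈ D.arc (E ψ f) → t ∈ Icc (0 : ℝ) 1 ∧ γ e t = z := by
    intro e f
    by_cases hh : e < 11 ∧ f < 11 ∧ e ≠ f ∧ ∃ z, z ∈ D.arc (E ψ e) ∧ z ∈ D.arc (E ψ f)
    · obtain ⟨he, hf, hne, z, hz1, hz2⟩ := hh
      obtain ⟨t, ht, htz⟩ := (hγ e he).2.2.2.2.2 z hz1
      refine ⟨t, fun _ _ _ w hw1 hw2 => ⟨ht, ?_⟩⟩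
      rw [htz]
      exact D.arc_inter _ (hadj e he) _ (hadj f hf) (E_ne' h8 he hf hne) ⟨hz1, hz2⟩ ⟨hw1, hw2⟩
    · exact ⟨0, fun he hf hne z hz1 hz2 => absurd ⟨he, hf, hne, z, hz1, hz2⟩ hh⟩
  choose pos hpos using h2
  exact ⟨γ, pos, h8, hadj, fun e he => (hγ e he).1, fun e he => (hγ e he).2.1,
    fun e he => (hγ e he).2.2.1, fun e he => (hγ e he).2.2.2.1, fun e he => (hγ e he).2.2.2.2.1,
    fun e he => (hγ e he).2.2.2.2.2, fun e he f hf hne => hpos e f he hf hne⟩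

variable {V : Type} {G : SimpleGraph V} {D : Pool.MCR.Drawing G} {ψ : ℕ → V}
  {γ : ℕ → ℝ → ℝ × ℝ} {pos : ℕ → ℕ → ℝ}

theorem E_ne (h : Dat D ψ γ pos) {e f : ℕ} (he : e < 11) (hf : f < 11) (hne : e ≠ f) :
    E ψ e ≠ E ψ f := E_ne' h.inj8 he hf hne

theorem E_mem (h : Dat D ψ γ pos) {e : ℕ} (he : e < 11) : E ψ e ∈ G.edgeSet := h.adj e he

theorem v0 (h : Dat D ψ γ pos) {e : ℕ} (he : e < 11) : D.pos (ψ (st e)) ∈ D.arc (E ψ e) := by
  rw [← h.zero e he]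
  exact h.mem e he 0 ⟨le_refl _, zero_le_one⟩

theorem v1 (h : Dat D ψ γ pos) {e : ℕ} (he : e < 11) : D.pos (ψ (en e)) ∈ D.arc (E ψ e) := by
  rw [← h.one e he]
  exact h.mem e he 1 ⟨zero_le_one, le_refl _⟩

/-- `e` and `f` have a common point -/
theorem mt (h : Dat D ψ γ pos) {e f : ℕ} (he : e < 11) (hf : f < 11)
    (hM : ¬ Dj e f ∨ D.Crosses (E ψ e) (E ψ f)) :
    ∃ z, z ∈ D.arc (E ψ e) ∧ z ∈ D.arc (E ψ f) := by
  rcases hM with hM | ⟨z, h1, h2, _⟩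
  · by_cases c1 : st e = st f
    · exact ⟨_, v0 h he, by rw [c1]; exact v0 h hf⟩
    by_cases c2 : st e = en f
    · exact ⟨_, v0 h he, by rw [c2]; exact v1 h hf⟩
    by_cases c3 : en e = st f
    · exact ⟨_, v1 h he, by rw [c3]; exact v0 h hf⟩
    by_cases c4 : en e = en f
    · exact ⟨_, v1 h he, by rw [c4]; exact v1 h hf⟩
    exact absurd ⟨c1, c2, c3, c4⟩ hM
  · exact ⟨z, h1, h2⟩

theorem pt (h : Dat D ψ γ pos) {e f : ℕ} (he : e < 11) (hf : f < 11) (hne : e ≠ f)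
    (hM : ¬ Dj e f ∨ D.Crosses (E ψ e) (E ψ f)) :
    pos e f ∈ Icc (0 : ℝ) 1 ∧ pos f e ∈ Icc (0 : ℝ) 1 ∧ γ e (pos e f) = γ f (pos f e) := by
  obtain ⟨z, h1, h2⟩ := mt h he hf hM
  have a1 := h.ps e he f hf hne z h1 h2
  have a2 := h.ps f hf e he hne.symm z h2 h1
  exact ⟨a1.1, a2.1, by rw [a1.2, a2.2]⟩

/-- disjoint edges which do not cross have no common point -/
theorem no_pt (h : Dat D ψ γ pos) {e f : ℕ} (he : e < 11) (hf : f < 11) (hD : Dj e f)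
    (hX : ¬ D.Crosses (E ψ e) (E ψ f)) (z : ℝ × ℝ) (h1 : z ∈ D.arc (E ψ e))
    (h2 : z ∈ D.arc (E ψ f)) : False := by
  by_cases hz : z ∈ Set.range D.pos
  · obtain ⟨w, rfl⟩ := hz
    have s1 := st_lt e he
    have s2 := st_lt f hf
    rcases D.arc_vertex _ _ w (h.adj e he) h1 with rfl | rfl
    · rcases D.arc_vertex _ _ _ (h.adj f hf) h2 with h3 | h3
      · exact hD.1 (h.inj8 _ s1.1 _ s2.1 h3)
      · exact hD.2.1 (h.inj8 _ s1.1 _ s2.2 h3)
    · rcases D.arc_vertex _ _ _ (h.adj f hf) h2 with h3 | h3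
      · exact hD.2.2.1 (h.inj8 _ s1.2 _ s2.1 h3)
      · exact hD.2.2.2 (h.inj8 _ s1.2 _ s2.2 h3)
  · exact hX ⟨z, h1, h2, hz⟩

theorem dj_ne {e f : ℕ} (hD : Dj e f) : e ≠ f := by
  rintro rfl
  exact hD.1 rfl

/-- the crossing point is not a vertex -/
theorem x_nr (h : Dat D ψ γ pos) {e f : ℕ} (he : e < 11) (hf : f < 11) (hne : e ≠ f)
    (hX : D.Crosses (E ψ e) (E ψ f)) : γ e (pos e f) ∉ Set.range D.pos := by
  obtain ⟨z, h1, h2, h3⟩ := hX
  rw [(h.ps e he f hf hne z h1 h2).2]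
  exact h3

theorem pos_start (h : Dat D ψ γ pos) {e f : ℕ} (he : e < 11) (hf : f < 11) (hne : e ≠ f)
    (hs : st e = st f ∨ st e = en f) : pos e f = 0 := by
  have h2 : D.pos (ψ (st e)) ∈ D.arc (E ψ f) := by
    rcases hs with hs | hs
    · rw [hs]; exact v0 h hf
    · rw [hs]; exact v1 h hf
  have h3 := h.ps e he f hf hne _ (v0 h he) h2
  exact h.injO e he h3.1 ⟨le_refl _, zero_le_one⟩ (by rw [h3.2, h.zero e he])

theorem pos_fin (h : Dat D ψ γ pos) {e f : ℕ} (he : e < 11) (hf : f < 11) (hne : e ≠ f)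
    (hs : en e = st f ∨ en e = en f) : pos e f = 1 := by
  have h2 : D.pos (ψ (en e)) ∈ D.arc (E ψ f) := by
    rcases hs with hs | hs
    · rw [hs]; exact v0 h hf
    · rw [hs]; exact v1 h hf
  have h3 := h.ps e he f hf hne _ (v1 h he) h2
  exact h.injO e he h3.1 ⟨zero_le_one, le_refl _⟩ (by rw [h3.2, h.one e he])

theorem pos_inn (h : Dat D ψ γ pos) {e f : ℕ} (he : e < 11) (hf : f < 11) (hne : e ≠ f)
    (hX : D.Crosses (E ψ e) (E ψ f)) : 0 < pos e f ∧ pos e f < 1 := by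
  have h1 := x_nr h he hf hne hX
  have h2 := (pt h he hf hne (Or.inr hX)).1
  constructor
  · rcases lt_or_eq_of_le h2.1 with h3 | h3
    · exact h3
    · exfalso
      refine h1 ?_
      rw [← h3, h.zero e he]
      exact ⟨_, rfl⟩
  · rcases lt_or_eq_of_le h2.2 with h3 | h3
    · exact h3
    · exfalso
      refine h1 ?_
      rw [h3, h.one e he]
      exact ⟨_, rfl⟩

/-- no third edge goes through a crossing -/
theorem trip (h : Dat D ψ γ pos) {e f g : ℕ} (he : e < 11) (hf : f < 11) (hg : g < 11)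
    (hef : e ≠ f) (heg : e ≠ g) (hX : D.Crosses (E ψ e) (E ψ f))
    (hM : ¬ Dj e g ∨ D.Crosses (E ψ e) (E ψ g)) (hp : pos e f = pos e g) : f = g := by
  by_contra hfg
  refine x_nr h he hf hef hX ?_
  have h1 := pt h he hf hef (Or.inr hX)
  have h2 := pt h he hg heg hM
  refine D.arc_triple _ (E_mem h he) _ (E_mem h hf) _ (E_mem h hg) (E_ne h he hf hef)
    (E_ne h he hg heg) (E_ne h hf hg hfg) _ (h.mem e he _ h1.1) ?_ ?_
  · rw [h1.2.2]
    exact h.mem f hf _ h1.2.1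
  · rw [hp, h2.2.2]
    exact h.mem g hg _ h2.2.1

theorem btw_or {x y z : ℝ} (h : x ∈ uIcc y z) (hb : ¬ Btw x y z) : x = y ∨ x = z := by
  rw [Set.mem_uIcc] at h
  unfold Btw at hb
  push Not at hb
  obtain ⟨h1, h2⟩ := hb
  rcases h with ⟨h3, h4⟩ | ⟨h3, h4⟩
  · rcases lt_or_eq_of_le h3 with h5 | h5
    · exact Or.inr (le_antisymm h4 (h1 h5))
    · exact Or.inl h5.symm
  · rcases lt_or_eq_of_le h3 with h5 | h5
    · exact Or.inl (le_antisymm h4 (h2 h5))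
    · exact Or.inr h5.symm

theorem pos_01 (h : Dat D ψ γ pos) {e f : ℕ} (he : e < 11) (hf : f < 11) (hne : e ≠ f)
    (hD : ¬ Dj e f) : pos e f = 0 ∨ pos e f = 1 := by
  by_cases c1 : st e = st f
  · exact Or.inl (pos_start h he hf hne (Or.inl c1))
  by_cases c2 : st e = en f
  · exact Or.inl (pos_start h he hf hne (Or.inr c2))
  by_cases c3 : en e = st f
  · exact Or.inr (pos_fin h he hf hne (Or.inl c3))
  by_cases c4 : en e = en f
  · exact Or.inr (pos_fin h he hf hne (Or.inr c4))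
  exact absurd ⟨c1, c2, c3, c4⟩ hD

/-- an end which is not a corner is not on the piece -/
theorem end_not {x y z : ℝ} (hx : x = 0 ∨ x = 1) (hy : y ∈ Icc (0 : ℝ) 1) (hz : z ∈ Icc (0 : ℝ) 1)
    (h1 : x ≠ y) (h2 : x ≠ z) : x ∉ uIcc y z := by
  intro h
  rw [Set.mem_uIcc] at h
  rcases hx with rfl | rfl
  · rcases h with ⟨h3, _⟩ | ⟨h3, _⟩
    · exact h1 (le_antisymm hy.1 h3)
    · exact h2 (le_antisymm hz.1 h3)
  · rcases h with ⟨_, h3⟩ | ⟨_, h3⟩
    · exact h2 (le_antisymm h3 hz.2)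
    · exact h1 (le_antisymm h3 hy.2)

theorem uIcc_sub {y z : ℝ} (hy : y ∈ Icc (0 : ℝ) 1) (hz : z ∈ Icc (0 : ℝ) 1) :
    uIcc y z ⊆ Icc 0 1 := by
  intro x hx
  rw [Set.mem_uIcc] at hx
  rcases hx with ⟨h1, h2⟩ | ⟨h1, h2⟩
  · exact ⟨hy.1.trans h1, h2.trans hz.2⟩
  · exact ⟨hz.1.trans h1, h2.trans hy.2⟩

/-- if the common point is not on both pieces, they are disjoint -/
theorem sep_of (h : Dat D ψ γ pos) {e f : ℕ} (he : e < 11) (hf : f < 11) (hne : e ≠ f)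
    {x y z w : ℝ} (hx : x ∈ Icc (0 : ℝ) 1) (hy : y ∈ Icc (0 : ℝ) 1) (hz : z ∈ Icc (0 : ℝ) 1)
    (hw : w ∈ Icc (0 : ℝ) 1) (hn : ¬ (pos e f ∈ uIcc x y ∧ pos f e ∈ uIcc z w)) :
    Sep (γ e) x y (γ f) z w := by
  intro t ht r hr heq
  have ht1 := uIcc_sub hx hy ht
  have hr1 := uIcc_sub hz hw hr
  have m1 := h.mem e he t ht1
  have m2 := h.mem f hf r hr1
  have m3 : γ e t ∈ D.arc (E ψ f) := by rw [heq]; exact m2
  have m4 : γ f r ∈ D.arc (E ψ e) := by rw [← heq]; exact m1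
  have p1 := h.ps e he f hf hne _ m1 m3
  have p2 := h.ps f hf e he hne.symm _ m2 m4
  have q1 : pos e f = t := h.injO e he p1.1 ht1 p1.2
  have q2 : pos f e = r := h.injO f hf p2.1 hr1 p2.2
  exact hn ⟨by rw [q1]; exact ht, by rw [q2]; exact hr⟩

/-- the pair of pieces -/
theorem piece (h : Dat D ψ γ pos) {e p n f r s : ℕ} (he : e < 11) (hp : p < 11) (hn : n < 11)
    (hf : f < 11) (hr : r < 11) (hs : s < 11) (nep : e ≠ p) (nen : e ≠ n) (nfr : f ≠ r)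
    (nfs : f ≠ s)
    (mep : ¬ Dj e p ∨ D.Crosses (E ψ e) (E ψ p)) (men : ¬ Dj e n ∨ D.Crosses (E ψ e) (E ψ n))
    (mfr : ¬ Dj f r ∨ D.Crosses (E ψ f) (E ψ r)) (mfs : ¬ Dj f s ∨ D.Crosses (E ψ f) (E ψ s))
    (hL : e = f → Lss (pos e p) (pos e n) (pos f r) (pos f s) ∨
      Lss (pos f r) (pos f s) (pos e p) (pos e n))
    (hT : e ≠ f → ¬ Dj e f → (pos e f ≠ pos e p ∧ pos e f ≠ pos e n) ∨
      (pos f e ≠ pos f r ∧ pos f e ≠ pos f s))
    (hP : f = p ∨ f = n → pos f e ∉ uIcc (pos f r) (pos f s))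
    (hQ : e = r ∨ e = s → pos e f ∉ uIcc (pos e p) (pos e n)) :
    (tm (fun e f => D.Crosses (E ψ e) (E ψ f)) pos e p n f r s = 0 ∧
      Sep (γ e) (pos e p) (pos e n) (γ f) (pos f r) (pos f s)) ∨
    (tm (fun e f => D.Crosses (E ψ e) (E ψ f)) pos e p n f r s = 1 ∧
      One (γ e) (pos e p) (pos e n) (γ f) (pos f r) (pos f s)) := by
  classical
  have iep := (pt h he hp nep mep).1
  have ien := (pt h he hn nen men).1
  have ifr := (pt h hf hr nfr mfr).1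
  have ifs := (pt h hf hs nfs mfs).1
  by_cases hef : e = f
  · left
    constructor
    · unfold tm
      rw [if_neg]
      rintro ⟨hD, _⟩
      exact dj_ne hD hef
    · subst hef
      intro t ht u hu heq
      have h1 : t = u := h.injO e he (uIcc_sub iep ien ht) (uIcc_sub ifr ifs hu) heq
      subst h1
      rw [Set.mem_uIcc] at ht hu
      rcases hL rfl with ⟨a, b, c, d⟩ | ⟨a, b, c, d⟩ <;>
        rcases ht with ⟨t1, t2⟩ | ⟨t1, t2⟩ <;> rcases hu with ⟨u1, u2⟩ | ⟨u1, u2⟩ <;> linarith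
  by_cases hD : Dj e f
  · by_cases hX : D.Crosses (E ψ e) (E ψ f)
    · have hX' : D.Crosses (E ψ f) (E ψ e) := by
        obtain ⟨z, z1, z2, z3⟩ := hX
        exact ⟨z, z2, z1, z3⟩
      by_cases hB : Btw (pos e f) (pos e p) (pos e n) ∧ Btw (pos f e) (pos f r) (pos f s)
      · right
        constructor
        · unfold tm
          rw [if_pos ⟨hD, hX, hB.1, hB.2⟩]
        · obtain ⟨q1, q2, q3⟩ := pt h he hf hef (Or.inr hX)
          refine ⟨pos e f, pos f e, hB.1, hB.2, q3, ?_, ?_⟩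
          · have i1 : γ e '' Icc 0 1 = D.arc (E ψ e) := by
              ext z
              constructor
              · rintro ⟨t, ht, rfl⟩
                exact h.mem e he t ht
              · exact fun hz => h.surj e he z hz
            have i2 : γ f '' Icc 0 1 = D.arc (E ψ f) := by
              ext z
              constructor
              · rintro ⟨t, ht, rfl⟩
                exact h.mem f hf t ht
              · exact fun hz => h.surj f hf z hz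
            rw [i1, i2]
            refine D.arc_proper _ (E_mem h he) _ (E_mem h hf) (E_ne h he hf hef) _ ?_
              (h.mem f hf _ q2) (x_nr h hf he (Ne.symm hef) hX')
            rw [← q3]
            exact h.mem e he _ q1
          · intro t ht u hu heq
            have ht1 := uIcc_sub iep ien ht
            have hu1 := uIcc_sub ifr ifs hu
            have m1 := h.mem e he t ht1
            have m2 := h.mem f hf u hu1
            have m3 : γ e t ∈ D.arc (E ψ f) := by rw [heq]; exact m2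
            have m4 : γ f u ∈ D.arc (E ψ e) := by rw [← heq]; exact m1
            have p1 := h.ps e he f hf hef _ m1 m3
            have p2 := h.ps f hf e he (Ne.symm hef) _ m2 m4
            exact ⟨h.injO e he ht1 p1.1 p1.2.symm, h.injO f hf hu1 p2.1 p2.2.symm⟩
      · left
        constructor
        · unfold tm
          rw [if_neg]
          rintro ⟨_, _, b1, b2⟩
          exact hB ⟨b1, b2⟩
        · refine sep_of h he hf hef iep ien ifr ifs ?_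
          rintro ⟨c1, c2⟩
          by_cases hB1 : Btw (pos e f) (pos e p) (pos e n)
          · have hB2 : ¬ Btw (pos f e) (pos f r) (pos f s) := fun hh => hB ⟨hB1, hh⟩
            rcases btw_or c2 hB2 with h3 | h3
            · exact hQ (Or.inl (trip h hf he hr (Ne.symm hef) nfr hX' mfr h3)) c1
            · exact hQ (Or.inr (trip h hf he hs (Ne.symm hef) nfs hX' mfs h3)) c1
          · rcases btw_or c1 hB1 with h3 | h3
            · exact hP (Or.inl (trip h he hf hp hef nep hX mep h3)) c2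
            · exact hP (Or.inr (trip h he hf hn hef nen hX men h3)) c2
    · left
      constructor
      · unfold tm
        rw [if_neg]
        rintro ⟨_, hx, _⟩
        exact hX hx
      · intro t ht u hu heq
        refine no_pt h he hf hD hX _ (h.mem e he t (uIcc_sub iep ien ht)) ?_
        rw [heq]
        exact h.mem f hf u (uIcc_sub ifr ifs hu)
  · left
    constructor
    · unfold tm
      rw [if_neg]
      rintro ⟨hd, _⟩
      exact hD hd
    · have hD' : ¬ Dj f e := fun hh => hD ⟨hh.1.symm, hh.2.2.1.symm, hh.2.1.symm, hh.2.2.2.symm⟩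
      refine sep_of h he hf hef iep ien ifr ifs ?_
      rintro ⟨c1, c2⟩
      rcases hT hef hD with ⟨t1, t2⟩ | ⟨t1, t2⟩
      · exact end_not (pos_01 h he hf hef hD) iep ien t1 t2 c1
      · exact end_not (pos_01 h hf he (Ne.symm hef) hD') ifr ifs t1 t2 c2

theorem lss_not1 {p n r s : ℝ} (h : Lss p n r s ∨ Lss r s p n) : n ∉ uIcc r s := by
  intro hn
  rw [Set.mem_uIcc] at hn
  rcases h with ⟨a, b, c, d⟩ | ⟨a, b, c, d⟩ <;> rcases hn with ⟨t1, t2⟩ | ⟨t1, t2⟩ <;> linarith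

theorem lss_not2 {p n r s : ℝ} (h : Lss p n r s ∨ Lss r s p n) : p ∉ uIcc r s := by
  intro hn
  rw [Set.mem_uIcc] at hn
  rcases h with ⟨a, b, c, d⟩ | ⟨a, b, c, d⟩ <;> rcases hn with ⟨t1, t2⟩ | ⟨t1, t2⟩ <;> linarith

theorem lss_not3 {p n r s : ℝ} (h : Lss p n r s ∨ Lss r s p n) : r ∉ uIcc p n := by
  intro hn
  rw [Set.mem_uIcc] at hn
  rcases h with ⟨a, b, c, d⟩ | ⟨a, b, c, d⟩ <;> rcases hn with ⟨t1, t2⟩ | ⟨t1, t2⟩ <;> linarith

theorem lss_not4 {p n r s : ℝ} (h : Lss p n r s ∨ Lss r s p n) : s ∉ uIcc p n := by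
  intro hn
  rw [Set.mem_uIcc] at hn
  rcases h with ⟨a, b, c, d⟩ | ⟨a, b, c, d⟩ <;> rcases hn with ⟨t1, t2⟩ | ⟨t1, t2⟩ <;> linarith

theorem f3_ne1 : ∀ i : Fin 3, i ≠ i + 1 := by decide
theorem f3_ne2 : ∀ i : Fin 3, i ≠ i + 2 := by decide
theorem f3_1 : ∀ i : Fin 3, i + 1 + 2 = i := by decide
theorem f3_2 : ∀ i : Fin 3, i + 2 + 1 = i := by decide

/-- `i` as an element of `Fin 3` -/
def f3 (i : ℕ) : Fin 3 := Fin.ofNat 3 i

theorem f3_3 : ∀ i : ℕ, i < 3 → f3 ((i + 1) % 3) = f3 i + 1 := by decide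

theorem f3_4 : ∀ i : Fin 3, f3 (i : ℕ) = i := by decide

/-- the walk of three pieces -/
theorem walk3 (h : Dat D ψ γ pos) (a : Fin 3 → ℕ) (ha : ∀ i, a i < 11)
    (hinj : Function.Injective a)
    (hm : ∀ i, ¬ Dj (a i) (a (i + 1)) ∨ D.Crosses (E ψ (a i)) (E ψ (a (i + 1)))) :
    Walk 3 (fun i : ℕ => γ (a (f3 i))) (fun i => pos (a (f3 i)) (a (f3 i + 2)))
      (fun i => pos (a (f3 i)) (a (f3 i + 1))) := by
  have hne1 : ∀ i, a i ≠ a (i + 1) := fun i hh => f3_ne1 i (hinj hh)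
  have hne2 : ∀ i, a i ≠ a (i + 2) := fun i hh => f3_ne2 i (hinj hh)
  have hm2 : ∀ i, ¬ Dj (a i) (a (i + 2)) ∨ D.Crosses (E ψ (a i)) (E ψ (a (i + 2))) := by
    intro i
    have h1 := hm (i + 2)
    rw [f3_2] at h1
    rcases h1 with h1 | ⟨z, z1, z2, z3⟩
    · exact Or.inl fun hh => h1 ⟨hh.1.symm, hh.2.2.1.symm, hh.2.1.symm, hh.2.2.2.symm⟩
    · exact Or.inr ⟨z, z2, z1, z3⟩
  refine ⟨by norm_num, ?_, ?_, ?_, ?_⟩
  · intro i _
    exact h.cont _ (ha _)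
  · intro i _
    exact h.injO _ (ha _)
  · intro i _
    exact uIcc_sub (pt h (ha _) (ha _) (hne2 _) (hm2 _)).1 (pt h (ha _) (ha _) (hne1 _) (hm _)).1
  · intro i hi
    rw [f3_3 i hi, f3_1]
    exact (pt h (ha _) (ha _) (hne1 _) (hm _)).2.2

/-- the pattern of a drawing -/
theorem pat_exists (hPAR : PAR_S) (h : Dat D ψ γ pos) :
    ∃ P : Pat, P.X = fun e f => D.Crosses (E ψ e) (E ψ f) := by
  have hsym : ∀ e f, D.Crosses (E ψ e) (E ψ f) → D.Crosses (E ψ f) (E ψ e) := by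
    rintro e f ⟨z, z1, z2, z3⟩
    exact ⟨z, z2, z1, z3⟩
  refine ⟨⟨fun e f => D.Crosses (E ψ e) (E ψ f), pos, hsym, ?_, ?_, ?_, ?_, ?_⟩, rfl⟩
  · exact fun e f he hf hne hs => pos_start h he hf hne hs
  · exact fun e f he hf hne hs => pos_fin h he hf hne hs
  · exact fun e f he hf hD hX => pos_inn h he hf (dj_ne hD) hX
  · intro e f g he hf hg hD hD' hX hX' hfg hp
    exact hfg (trip h he hf hg (dj_ne hD) (dj_ne hD') hX (Or.inr hX') hp)
  · intro a b ha hb ia ib ma mb _ _ hL hT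
    have hne1 : ∀ i, a i ≠ a (i + 1) := fun i hh => f3_ne1 i (ia hh)
    have hne2 : ∀ i, a i ≠ a (i + 2) := fun i hh => f3_ne2 i (ia hh)
    have hne3 : ∀ i, b i ≠ b (i + 1) := fun i hh => f3_ne1 i (ib hh)
    have hne4 : ∀ i, b i ≠ b (i + 2) := fun i hh => f3_ne2 i (ib hh)
    have ma2 : ∀ i, ¬ Dj (a i) (a (i + 2)) ∨ D.Crosses (E ψ (a i)) (E ψ (a (i + 2))) := by
      intro i
      have h1 := ma (i + 2)
      rw [f3_2] at h1
      rcases h1 with h1 | h1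
      · exact Or.inl fun hh => h1 ⟨hh.1.symm, hh.2.2.1.symm, hh.2.1.symm, hh.2.2.2.symm⟩
      · exact Or.inr (hsym _ _ h1)
    have mb2 : ∀ i, ¬ Dj (b i) (b (i + 2)) ∨ D.Crosses (E ψ (b i)) (E ψ (b (i + 2))) := by
      intro i
      have h1 := mb (i + 2)
      rw [f3_2] at h1
      rcases h1 with h1 | h1
      · exact Or.inl fun hh => h1 ⟨hh.1.symm, hh.2.2.1.symm, hh.2.1.symm, hh.2.2.2.symm⟩
      · exact Or.inr (hsym _ _ h1)
    have key := hPAR 3 (fun i : ℕ => γ (a (f3 i)))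
      (fun i => pos (a (f3 i)) (a (f3 i + 2)))
      (fun i => pos (a (f3 i)) (a (f3 i + 1))) 3 (fun i : ℕ => γ (b (f3 i)))
      (fun i => pos (b (f3 i)) (b (f3 i + 2)))
      (fun i => pos (b (f3 i)) (b (f3 i + 1)))
      (fun i j => tm (fun e f => D.Crosses (E ψ e) (E ψ f)) pos (a (f3 i))
        (a (f3 i + 2)) (a (f3 i + 1)) (b (f3 j)) (b (f3 j + 2))
        (b (f3 j + 1)))
      (walk3 h a ha ia ma) (walk3 h b hb ib mb) ?_
    · rw [Finset.sum_range] at key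
      simp only [Finset.sum_range, f3_4] at key
      exact key
    · intro i _ j _
      generalize f3 i = i
      generalize f3 j = j
      refine piece h (ha _) (ha _) (ha _) (hb _) (hb _) (hb _) (hne2 i) (hne1 i) (hne4 j) (hne3 j)
        (ma2 i) (ma i) (mb2 j) (mb j) (hL i j) (hT i j) ?_ ?_
      · rintro (h1 | h1)
        · have h2 := hL (i + 2) j h1.symm
          rw [f3_2, ← h1] at h2
          exact lss_not1 h2
        · have h2 := hL (i + 1) j h1.symm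
          rw [f3_1, ← h1] at h2
          exact lss_not2 h2
      · rintro (h1 | h1)
        · have h2 := hL i (j + 2) h1
          rw [f3_2, ← h1] at h2
          exact lss_not4 h2
        · have h2 := hL i (j + 1) h1
          rw [f3_1, ← h1] at h2
          exact lss_not3 h2

/-- **The 20 crossings.** For every drawing of a graph which contains the 11 edges. -/
theorem bridge (hPAR : PAR_S) {V : Type} {G : SimpleGraph V} (D : Pool.MCR.Drawing G) (ψ : ℕ → V)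
    (h8 : ∀ i < 8, ∀ j < 8, ψ i = ψ j → i = j) (hadj : ∀ e < 11, G.Adj (ψ (st e)) (ψ (en e))) :
    ¬ ∀ q ∈ req, D.Crosses (E ψ q.1) (E ψ q.2) := by
  obtain ⟨γ, pos, h⟩ := dat_exists D ψ h8 hadj
  obtain ⟨P, hP⟩ := pat_exists hPAR h
  intro hreq
  refine t20 P ?_
  intro q hq
  rw [hP]
  exact hreq q hq

/-- the vertices as elements of `Fin 8` -/
def v8 (i : ℕ) : Fin 8 := Fin.ofNat 8 i

theorem v8_adj : ∀ e < 11, Pool.MCR.Red.G0.Adj (v8 (st e)) (v8 (en e)) := by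
  intro e he
  change (v8 (st e), v8 (en e)) ∈ Pool.MCR.Red.e0 ∨ (v8 (en e), v8 (st e)) ∈ Pool.MCR.Red.e0
  revert e
  decide

theorem v8_inj : ∀ i < 8, ∀ j < 8, v8 i = v8 j → i = j := by decide

theorem v8_req : ∀ q ∈ req,
    (v8 (st q.1), v8 (en q.1), v8 (st q.2), v8 (en q.2)) ∈ Pool.MCR.Red.r20 ∨
    (v8 (st q.2), v8 (en q.2), v8 (st q.1), v8 (en q.1)) ∈ Pool.MCR.Red.r20 := by decide

theorem t20_red (hPAR : PAR_S) : Pool.MCR.Red.T20_S := by
  intro D hall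
  refine bridge hPAR D v8 v8_inj v8_adj ?_
  intro q hq
  rcases v8_req q hq with h1 | h1
  · exact hall _ h1
  · obtain ⟨z, z1, z2, z3⟩ := hall _ h1
    exact ⟨z, z2, z1, z3⟩

end Pool.FFB
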