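import Mathlib

/-!
# MP_ffb5eb: patterns of drawings of the base graph `G` with 11 edges

Edges `0, ..., 10` are `01 02 16 24 25 35 37 46 47 67 03`, each from its smaller to its larger end.
-/

set_option autoImplicit false

namespace Pool.FFB

/-- the start of the edge `e` -/
def st (e : ℕ) : ℕ := [0, 0, 1, 2, 2, 3, 3, 4, 4, 6, 0].getD e 20

/-- the end of the edge `e` -/
def en (e : ℕ) : ℕ := [1, 2, 6, 4, 5, 5, 7, 6, 7, 7, 3].getD e 21

/-- `e` and `f` have no common vertex -/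
def Dj (e f : ℕ) : Prop := st e ≠ st f ∧ st e ≠ en f ∧ en e ≠ st f ∧ en e ≠ en f

instance (e f : ℕ) : Decidable (Dj e f) := by unfold Dj; infer_instance

/-- `y < x < z` or `z < x < y` -/
def Btw (x y z : ℝ) : Prop := (y < x ∧ x < z) ∨ (z < x ∧ x < y)

/-- both of `p, n` are less than both of `r, s` -/
def Lss (p n r s : ℝ) : Prop := p < r ∧ p < s ∧ n < r ∧ n < s

open Classical in
/-- `1` if the piece of `e` between its meeting points with `p` and `n` and the piece of `f` between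
its meeting points with `r` and `s` cross, else `0` -/
noncomputable def tm (X : ℕ → ℕ → Prop) (pos : ℕ → ℕ → ℝ) (e p n f r s : ℕ) : ℕ :=
  if Dj e f ∧ X e f ∧ Btw (pos e f) (pos e p) (pos e n) ∧ Btw (pos f e) (pos f r) (pos f s)
  then 1 else 0

/-- `X e f`: the edges `e, f` cross; `pos e f`: the parameter in `[0,1]` on `e` of the common point of
`e` and `f` (a common end or a crossing). `par`: two closed walks `a`, `b`, each of three pieces of
edges between meeting points; their pieces on a common edge are disjoint, and they have no common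
vertex of `G` (if `a i`, `b j` share a vertex, it is not on both pieces): they cross evenly -/
structure Pat where
  X : ℕ → ℕ → Prop
  pos : ℕ → ℕ → ℝ
  symm : ∀ e f, X e f → X f e
  start : ∀ e f, e < 11 → f < 11 → e ≠ f → (st e = st f ∨ st e = en f) → pos e f = 0
  fin : ∀ e f, e < 11 → f < 11 → e ≠ f → (en e = st f ∨ en e = en f) → pos e f = 1
  inn : ∀ e f, e < 11 → f < 11 → Dj e f → X e f → 0 < pos e f ∧ pos e f < 1
  inj : ∀ e f g, e < 11 → f < 11 → g < 11 → Dj e f → Dj e g → X e f → X e g → f ≠ g →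
    pos e f ≠ pos e g
  par : ∀ a b : Fin 3 → ℕ, (∀ i, a i < 11) → (∀ i, b i < 11) →
    Function.Injective a → Function.Injective b →
    (∀ i, ¬ Dj (a i) (a (i + 1)) ∨ X (a i) (a (i + 1))) →
    (∀ i, ¬ Dj (b i) (b (i + 1)) ∨ X (b i) (b (i + 1))) →
    (∀ i, pos (a i) (a (i + 2)) ≠ pos (a i) (a (i + 1))) →
    (∀ i, pos (b i) (b (i + 2)) ≠ pos (b i) (b (i + 1))) →
    (∀ i j, a i = b j →
      Lss (pos (a i) (a (i + 2))) (pos (a i) (a (i + 1))) (pos (b j) (b (j + 2)))
        (pos (b j) (b (j + 1))) ∨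
      Lss (pos (b j) (b (j + 2))) (pos (b j) (b (j + 1))) (pos (a i) (a (i + 2)))
        (pos (a i) (a (i + 1)))) →
    (∀ i j, a i ≠ b j → ¬ Dj (a i) (b j) →
      (pos (a i) (b j) ≠ pos (a i) (a (i + 2)) ∧ pos (a i) (b j) ≠ pos (a i) (a (i + 1))) ∨
      (pos (b j) (a i) ≠ pos (b j) (b (j + 2)) ∧ pos (b j) (a i) ≠ pos (b j) (b (j + 1)))) →
    Even (∑ i : Fin 3, ∑ j : Fin 3,
      tm X pos (a i) (a (i + 2)) (a (i + 1)) (b j) (b (j + 2)) (b (j + 1)))

/-- the 20 pairs of edges -/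
def req : List (ℕ × ℕ) := [(0, 3), (0, 4), (3, 5), (0, 7), (2, 3), (4, 7), (1, 8), (4, 8), (5, 8),
  (0, 9), (2, 6), (2, 8), (3, 9), (6, 7), (5, 9), (0, 8), (4, 9), (2, 4), (3, 6), (5, 7)]

/-- **T20.** No drawing of `G` has all 20 crossings. -/
def T20 : Prop := ∀ P : Pat, ¬ ∀ q ∈ req, P.X q.1 q.2

end Pool.FFB
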