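import Pool.Agent.H1.JCT.MON
import Pool.Agent.H10.JCT.DG2
import Pool.Agent.H10.JCT.DG1
import Pool.Agent.H14.JCT.INC
import Pool.Agent.H22.JCT.REP
import Pool.Agent.H24.JCT.LCO
import Pool.Agent.H25.JCT.CIR
import Pool.Agent.H33.JCT.SEG
import Pool.Agent.H33.JCT.SEL
import Pool.Agent.H38.JCT.LFL
import Pool.Agent.H41.JCT.WIN
import Pool.Agent.H44.JCT.ARC
import Pool.Agent.H48.JCT.IND
import Pool.Agent.H49.JCT.JMP
import Pool.Agent.H50.JCT.FL1
import Pool.Agent.H52.JCT.PAR
import Pool.Agent.H53.JCT.FLA
import Pool.Agent.H62.JCT.CTY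
import Pool.Agent.H63.JCT.HRE
import Pool.Agent.H65.JCT.CPT
import Pool.Agent.H65.JCT.SID
import Pool.Agent.H67.JCT.PER
import Pool.Agent.H85.JCT.ADD
import Pool.Agent.H9.JCT.CLO
import Pool.Agent.H93.FFB.Bridge

/-!
# Assembly of the board jct, and the theorem on the 20 crossings
-/

set_option autoImplicit false

namespace Pool.FFB

open Pool.JCT

theorem add_done : ADD_S := add_thm inc_thm
theorem cty_done : CTY_S := cty_thm inc_thm
theorem cpt_done : CPT_S := cpt_thm inc_thm
theorem rep_done : REP_S := rep_thm inc_thm
theorem hre_done : HRE_S := hre_thm add_done cty_done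
theorem clo_done : CLO_S := clo_thm add_done cty_done
theorem per_done : PER_S := per_thm add_done rep_done
theorem dg1_done : DG1_S := dg1_thm inc_thm clo_done rep_done per_done
theorem dg2_done : DG2_S := dg2_thm inc_thm clo_done dg1_done
theorem seg_done : SEG_S := seg_thm rep_done hre_done
theorem cir_done : CIR_S := cir_thm add_done rep_done
theorem jmp_done : JMP_S := jmp_thm dg2_done seg_done cir_done
theorem sid_done : SID_S := sid_thm mon_thm
theorem sel_done : SEL_S := sel_thm mon_thm
theorem fla_done : FLA_S := fla_thm inc_thm add_done cpt_done rep_done jmp_done sel_done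
theorem fl1_done : FL1_S := fl1_thm add_done fla_done
theorem win_done : WIN_S := win_thm add_done
theorem lco_done : LCO_S := lco_thm cpt_done win_done
theorem lfl_done : LFL_S := lfl_thm cpt_done sid_done fl1_done win_done
theorem arc_done : ARC_S := arc_thm win_done lco_done lfl_done ind_thm

/-- Two closed walks cross evenly. -/
theorem par_done : PAR_S := par_thm arc_done

/-- **T20.** In no drawing of the base graph all the 20 pairs of edges cross. -/
theorem t20_done : Pool.MCR.Red.T20_S := t20_red par_done

end Pool.FFB
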