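import Pool.Agent.H93.FFB.Tab
import Pool.Agent.H26.RUP.Check

/-!
# MP_ffb5eb: soundness of the clause checker
-/

set_option autoImplicit false

namespace Pool.FFB

open Pool.Agent.H26.RUP

/-- bit `i` of `m` -/
def tb (m i : ℕ) : Bool := Nat.beq (Nat.land (Nat.shiftRight m i) 1) 1

theorem tb_eq (m i : ℕ) : tb m i = m.testBit i := by
  unfold tb
  have h : Nat.land (Nat.shiftRight m i) 1 = (m >>> i) % 2 := by
    change (m >>> i) &&& 1 = _
    rw [Nat.and_one_is_mod]
  rw [h]
  rw [Nat.testBit_eq_decide_div_mod_eq, Nat.shiftRight_eq_div_pow]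
  rcases Nat.mod_two_eq_zero_or_one (m / 2 ^ i) with h0 | h0 <;> rw [h0] <;> rfl

def dj (e f : ℕ) : Bool := tb (dm.getD e 0) f
def ss (e f : ℕ) : Bool := tb (sm.getD e 0) f
def ee (e f : ℕ) : Bool := tb (em.getD e 0) f
def xi (e f : ℕ) : ℕ := (xt.getD e []).getD f 500
def oi (e f g : ℕ) : ℕ := ((ot.getD e []).getD f []).getD g 500

theorem tab1 : ∀ e < 11, ∀ f < 11, (dj e f = true ↔ Dj e f) ∧
    (ss e f = true ↔ e ≠ f ∧ (st e = st f ∨ st e = en f)) ∧
    (ee e f = true ↔ e ≠ f ∧ (en e = st f ∨ en e = en f)) := by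
  decide +kernel

theorem tab2 : ∀ e < 11, ∀ f < 11, dj e f = true → xi e f < 224 ∧ dG.getD (xi e f) 0 = 11 ∧
    ((dE.getD (xi e f) 0 = e ∧ dF.getD (xi e f) 0 = f) ∨
      (dE.getD (xi e f) 0 = f ∧ dF.getD (xi e f) 0 = e)) := by
  decide +kernel

def t3 (e f g : ℕ) : Bool :=
  !(dj e f && dj e g && Nat.blt f g) || (Nat.blt (oi e f g) 224 &&
    Nat.beq (dE.getD (oi e f g) 0) e && Nat.beq (dF.getD (oi e f g) 0) f &&
    Nat.beq (dG.getD (oi e f g) 0) g)

theorem tab3' : ∀ e < 11, ∀ f < 11, ∀ g < 11, t3 e f g = true := by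
  decide +kernel

theorem tab3 (e : ℕ) (he : e < 11) (f : ℕ) (hf : f < 11) (g : ℕ) (hg : g < 11)
    (h1 : dj e f = true) (h2 : dj e g = true) (h3 : f < g) :
    oi e f g < 224 ∧ dE.getD (oi e f g) 0 = e ∧ dF.getD (oi e f g) 0 = f ∧
      dG.getD (oi e f g) 0 = g := by
  have h := tab3' e he f hf g hg
  unfold t3 at h
  have h4 : Nat.blt f g = true := by rw [Nat.blt_eq]; exact h3
  rw [h1, h2, h4] at h
  simp only [Bool.and_self, Bool.not_true, Bool.false_or, Bool.and_eq_true, Nat.blt_eq] at h
  obtain ⟨⟨⟨a, b⟩, c⟩, d⟩ := h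
  exact ⟨a, Nat.eq_of_beq_eq_true b, Nat.eq_of_beq_eq_true c, Nat.eq_of_beq_eq_true d⟩

theorem tab4 : ∀ v < 448, tb rqm v = true → 224 ≤ v ∧ dG.getD (v - 224) 0 = 11 ∧
    (dE.getD (v - 224) 0, dF.getD (v - 224) 0) ∈ req := by
  decide +kernel

/-- the meaning of the variables -/
def val (P : Pat) (v : ℕ) : Prop :=
  if dG.getD v 0 = 11 then P.X (dE.getD v 0) (dF.getD v 0)
  else P.pos (dE.getD v 0) (dF.getD v 0) ≤ P.pos (dE.getD v 0) (dG.getD v 0)

/-- what is known: bit `v`: `v` is false, bit `224 + v`: `v` is true -/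
def Kn (P : Pat) (K : ℕ) : Prop :=
  ∀ v < 224, (tb K v = true → ¬ val P v) ∧ (tb K (224 + v) = true → val P v)

def kx (K e f : ℕ) : Bool := tb K (224 + xi e f)
def kn (K e f : ℕ) : Bool := tb K (xi e f)

/-- known: the crossing with `f` is before the crossing with `g` on `e` -/
def kb (K e f g : ℕ) : Bool :=
  cond (Nat.blt f g) (tb K (224 + oi e f g)) (cond (Nat.blt g f) (tb K (oi e g f)) false)

def bef (K e f g : ℕ) : Bool :=
  cond (ss e f) (!ss e g) (cond (ee e f) false (cond (ee e g) true (cond (ss e g) false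
    (kb K e f g))))

/-- `e` and `f` meet -/
def M (P : Pat) (e f : ℕ) : Prop := e ≠ f ∧ (¬ Dj e f ∨ P.X e f)

def km (K e f : ℕ) : Bool := !Nat.beq e f && (!dj e f || kx K e f)

variable {P : Pat} {K : ℕ}

theorem kx_sound (hK : Kn P K) {e f : ℕ} (he : e < 11) (hf : f < 11) (hd : dj e f = true)
    (h : kx K e f = true) : P.X e f := by
  obtain ⟨h1, h2, h3⟩ := tab2 e he f hf hd
  have h4 := (hK _ h1).2 h
  unfold val at h4
  rw [if_pos h2] at h4
  rcases h3 with ⟨a, b⟩ | ⟨a, b⟩
  · rw [a, b] at h4; exact h4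
  · rw [a, b] at h4; exact P.symm _ _ h4

theorem kn_sound (hK : Kn P K) {e f : ℕ} (he : e < 11) (hf : f < 11) (hd : dj e f = true)
    (h : kn K e f = true) : ¬ P.X e f := by
  obtain ⟨h1, h2, h3⟩ := tab2 e he f hf hd
  have h4 := (hK _ h1).1 h
  unfold val at h4
  rw [if_pos h2] at h4
  rcases h3 with ⟨a, b⟩ | ⟨a, b⟩
  · rw [a, b] at h4; exact h4
  · rw [a, b] at h4; exact fun hx => h4 (P.symm _ _ hx)

theorem kb_sound (hK : Kn P K) {e f g : ℕ} (he : e < 11) (hf : f < 11) (hg : g < 11)
    (hd : dj e f = true) (hd' : dj e g = true) (hx : P.X e f) (hx' : P.X e g)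
    (h : kb K e f g = true) : P.pos e f < P.pos e g := by
  have hD := (tab1 e he f hf).1.1 hd
  have hD' := (tab1 e he g hg).1.1 hd'
  unfold kb at h
  cases hb : Nat.blt f g with
  | true =>
    rw [hb, cond_true] at h
    have hfg : f < g := by simpa [Nat.blt_eq] using hb
    obtain ⟨h1, h2, h3, h4⟩ := tab3 e he f hf g hg hd hd' hfg
    have h5 := (hK _ h1).2 h
    unfold val at h5
    rw [h4, if_neg (by omega), h2, h3] at h5
    exact lt_of_le_of_ne h5 (P.inj e f g he hf hg hD hD' hx hx' (by omega))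
  | false =>
    rw [hb, cond_false] at h
    cases hb' : Nat.blt g f with
    | true =>
      rw [hb', cond_true] at h
      have hfg : g < f := by simpa [Nat.blt_eq] using hb'
      obtain ⟨h1, h2, h3, h4⟩ := tab3 e he g hg f hf hd' hd hfg
      have h5 := (hK _ h1).1 h
      unfold val at h5
      rw [h4, if_neg (by omega), h2, h3, not_le] at h5
      exact h5
    | false =>
      rw [hb', cond_false] at h
      exact absurd h (by simp)

theorem pos_ss {e f : ℕ} (he : e < 11) (hf : f < 11) (h : ss e f = true) : P.pos e f = 0 := by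
  obtain ⟨a, b⟩ := (tab1 e he f hf).2.1.1 h
  exact P.start e f he hf a b

theorem pos_ee {e f : ℕ} (he : e < 11) (hf : f < 11) (h : ee e f = true) : P.pos e f = 1 := by
  obtain ⟨a, b⟩ := (tab1 e he f hf).2.2.1 h
  exact P.fin e f he hf a b

theorem tab5 : ∀ e < 11, ∀ f < 11, e ≠ f → ss e f = false → ee e f = false → dj e f = true := by
  decide +kernel

theorem M_cases {e f : ℕ} (he : e < 11) (hf : f < 11) (hM : M P e f) (h1 : ss e f = false)
    (h2 : ee e f = false) : dj e f = true ∧ P.X e f ∧ 0 < P.pos e f ∧ P.pos e f < 1 := by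
  have hd := tab5 e he f hf hM.1 h1 h2
  have hD := (tab1 e he f hf).1.1 hd
  have hx : P.X e f := hM.2.resolve_left (fun h => h hD)
  exact ⟨hd, hx, P.inn e f he hf hD hx⟩

theorem pos_nonneg {e f : ℕ} (he : e < 11) (hf : f < 11) (hM : M P e f) (h : ss e f = false) :
    0 < P.pos e f := by
  cases h2 : ee e f with
  | true => rw [pos_ee he hf h2]; norm_num
  | false => exact (M_cases he hf hM h h2).2.2.1

theorem pos_lt_one {e f : ℕ} (he : e < 11) (hf : f < 11) (hM : M P e f) (h : ee e f = false) :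
    P.pos e f < 1 := by
  cases h2 : ss e f with
  | true => rw [pos_ss he hf h2]; norm_num
  | false => exact (M_cases he hf hM h2 h).2.2.2

theorem bef_sound (hK : Kn P K) {e f g : ℕ} (he : e < 11) (hf : f < 11) (hg : g < 11)
    (hM : M P e f) (hM' : M P e g) (h : bef K e f g = true) : P.pos e f < P.pos e g := by
  unfold bef at h
  cases h1 : ss e f with
  | true =>
    rw [h1, cond_true] at h
    have h2 : ss e g = false := by simpa using h
    rw [pos_ss he hf h1]
    exact pos_nonneg he hg hM' h2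
  | false =>
    rw [h1, cond_false] at h
    cases h2 : ee e f with
    | true => rw [h2, cond_true] at h; exact absurd h (by simp)
    | false =>
      rw [h2, cond_false] at h
      cases h3 : ee e g with
      | true =>
        rw [pos_ee he hg h3]
        exact pos_lt_one he hf hM h2
      | false =>
        rw [h3, cond_false] at h
        cases h4 : ss e g with
        | true => rw [h4, cond_true] at h; exact absurd h (by simp)
        | false =>
          rw [h4, cond_false] at h
          obtain ⟨a1, a2, _⟩ := M_cases he hf hM h1 h2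
          obtain ⟨b1, b2, _⟩ := M_cases he hg hM' h4 h3
          exact kb_sound hK he hf hg a1 b1 a2 b2 h

theorem km_sound (hK : Kn P K) {e f : ℕ} (he : e < 11) (hf : f < 11) (h : km K e f = true) :
    M P e f := by
  unfold km at h
  rw [Bool.and_eq_true, Bool.or_eq_true] at h
  obtain ⟨h1, h2⟩ := h
  have hne : e ≠ f := by
    rintro rfl
    simp at h1
  refine ⟨hne, ?_⟩
  cases hd : dj e f with
  | false =>
    left
    intro hD
    have := (tab1 e he f hf).1.2 hD
    rw [hd] at this
    exact absurd this (by simp)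
  | true =>
    right
    rcases h2 with h2 | h2
    · rw [hd] at h2; exact absurd h2 (by simp)
    · exact kx_sound hK he hf hd h2

/-- the corners of the piece are different -/
def pc (e p n : ℕ) : Bool := !Nat.beq p n && !(ss e p && ss e n) && !(ee e p && ee e n)

theorem pc_sound {e p n : ℕ} (he : e < 11) (hp : p < 11) (hn : n < 11) (h1 : M P e p)
    (h2 : M P e n) (h : pc e p n = true) : P.pos e p ≠ P.pos e n := by
  unfold pc at h
  rw [Bool.and_eq_true, Bool.and_eq_true] at h
  obtain ⟨⟨a, b⟩, c⟩ := h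
  have hne : p ≠ n := by
    rintro rfl
    simp at a
  cases s1 : ss e p with
  | true =>
    have s2 : ss e n = false := by simpa [s1] using b
    rw [pos_ss he hp s1]
    exact (pos_nonneg he hn h2 s2).ne
  | false =>
    cases s2 : ss e n with
    | true =>
      rw [pos_ss he hn s2]
      exact (pos_nonneg he hp h1 s1).ne'
    | false =>
      cases e1 : ee e p with
      | true =>
        have e2 : ee e n = false := by simpa [e1] using c
        rw [pos_ee he hp e1]
        exact (pos_lt_one he hn h2 e2).ne'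
      | false =>
        cases e2 : ee e n with
        | true =>
          rw [pos_ee he hn e2]
          exact (pos_lt_one he hp h1 e1).ne
        | false =>
          obtain ⟨a1, a2, _⟩ := M_cases he hp h1 s1 e1
          obtain ⟨b1, b2, _⟩ := M_cases he hn h2 s2 e2
          exact P.inj e p n he hp hn ((tab1 e he p hp).1.1 a1) ((tab1 e he n hn).1.1 b1) a2 b2 hne

/-- the pieces `(p, n)` and `(r, s)` of `e` are separated -/
def ls (K e p n r s : ℕ) : Bool :=
  bef K e p r && bef K e p s && bef K e n r && bef K e n s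

theorem ls_sound (hK : Kn P K) {e p n r s : ℕ} (he : e < 11) (hp : p < 11) (hn : n < 11)
    (hr : r < 11) (hs : s < 11) (h1 : M P e p) (h2 : M P e n) (h3 : M P e r) (h4 : M P e s)
    (h : ls K e p n r s = true) : Lss (P.pos e p) (P.pos e n) (P.pos e r) (P.pos e s) := by
  unfold ls at h
  rw [Bool.and_eq_true, Bool.and_eq_true, Bool.and_eq_true] at h
  obtain ⟨⟨⟨a, b⟩, c⟩, d⟩ := h
  exact ⟨bef_sound hK he hp hr h1 h3 a, bef_sound hK he hp hs h1 h4 b,
    bef_sound hK he hn hr h2 h3 c, bef_sound hK he hn hs h2 h4 d⟩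

/-- the common vertex of `e` and `f` is not on the piece `(p, n)` of `e` -/
def nt (e p n f : ℕ) : Bool :=
  !(ss e f && (ss e p || ss e n)) && !(ee e f && (ee e p || ee e n))

theorem nt_sound {e p n f : ℕ} (he : e < 11) (hp : p < 11) (hn : n < 11) (hf : f < 11)
    (h1 : M P e p) (h2 : M P e n) (hef : e ≠ f) (hd : dj e f = false) (h : nt e p n f = true) :
    P.pos e f ≠ P.pos e p ∧ P.pos e f ≠ P.pos e n := by
  unfold nt at h
  rw [Bool.and_eq_true] at h
  obtain ⟨a, b⟩ := h
  cases s1 : ss e f with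
  | true =>
    have h3 : ss e p = false ∧ ss e n = false := by simpa [s1] using a
    rw [pos_ss he hf s1]
    exact ⟨(pos_nonneg he hp h1 h3.1).ne, (pos_nonneg he hn h2 h3.2).ne⟩
  | false =>
    cases e1 : ee e f with
    | true =>
      have h3 : ee e p = false ∧ ee e n = false := by simpa [e1] using b
      rw [pos_ee he hf e1]
      exact ⟨(pos_lt_one he hp h1 h3.1).ne', (pos_lt_one he hn h2 h3.2).ne'⟩
    | false =>
      have := tab5 e he f hf hef s1 e1
      rw [hd] at this
      exact absurd this (by simp)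

def out (K e p n f : ℕ) : Bool :=
  Nat.beq f p || Nat.beq f n || (bef K e f p && bef K e f n) || (bef K e p f && bef K e n f)

def ins (K e p n f : ℕ) : Bool :=
  (bef K e p f && bef K e f n) || (bef K e n f && bef K e f p)

theorem out_sound (hK : Kn P K) {e p n f : ℕ} (he : e < 11) (hp : p < 11) (hn : n < 11)
    (hf : f < 11) (h1 : M P e p) (h2 : M P e n) (h3 : M P e f) (h : out K e p n f = true) :
    ¬ Btw (P.pos e f) (P.pos e p) (P.pos e n) := by
  unfold out at h
  rw [Bool.or_eq_true, Bool.or_eq_true, Bool.or_eq_true, Bool.and_eq_true, Bool.and_eq_true] at h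
  rcases h with ((h | h) | ⟨ha, hb⟩) | ⟨ha, hb⟩
  · have : f = p := Nat.eq_of_beq_eq_true h
    subst this
    rintro (⟨h4, _⟩ | ⟨_, h4⟩) <;> exact lt_irrefl _ h4
  · have : f = n := Nat.eq_of_beq_eq_true h
    subst this
    rintro (⟨_, h4⟩ | ⟨h4, _⟩) <;> exact lt_irrefl _ h4
  · have a1 := bef_sound hK he hf hp h3 h1 ha
    have a2 := bef_sound hK he hf hn h3 h2 hb
    rintro (⟨h4, _⟩ | ⟨h4, _⟩)
    · exact lt_asymm a1 h4
    · exact lt_asymm a2 h4
  · have a1 := bef_sound hK he hp hf h1 h3 ha
    have a2 := bef_sound hK he hn hf h2 h3 hb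
    rintro (⟨_, h4⟩ | ⟨_, h4⟩)
    · exact lt_asymm a2 h4
    · exact lt_asymm a1 h4

theorem ins_sound (hK : Kn P K) {e p n f : ℕ} (he : e < 11) (hp : p < 11) (hn : n < 11)
    (hf : f < 11) (h1 : M P e p) (h2 : M P e n) (h3 : M P e f) (h : ins K e p n f = true) :
    Btw (P.pos e f) (P.pos e p) (P.pos e n) := by
  unfold ins at h
  rw [Bool.or_eq_true, Bool.and_eq_true, Bool.and_eq_true] at h
  rcases h with ⟨ha, hb⟩ | ⟨ha, hb⟩
  · exact Or.inl ⟨bef_sound hK he hp hf h1 h3 ha, bef_sound hK he hf hn h3 h2 hb⟩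
  · exact Or.inr ⟨bef_sound hK he hn hf h2 h3 ha, bef_sound hK he hf hp h3 h1 hb⟩

/-- the number of crossings of two pieces (`2`: unknown) -/
def tv (K e p n f r s : ℕ) : ℕ :=
  cond (Nat.beq e f || !dj e f || kn K e f || out K e p n f || out K f r s e) 0
    (cond (kx K e f && ins K e p n f && ins K f r s e) 1 2)

theorem tv_sound (hK : Kn P K) {e p n f r s : ℕ} (he : e < 11) (hp : p < 11) (hn : n < 11)
    (hf : f < 11) (hr : r < 11) (hs : s < 11) (h1 : M P e p) (h2 : M P e n) (h3 : M P f r)
    (h4 : M P f s) (h : tv K e p n f r s ≤ 1) :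
    tm P.X P.pos e p n f r s = tv K e p n f r s := by
  classical
  unfold tv at h ⊢
  cases hc : (Nat.beq e f || !dj e f || kn K e f || out K e p n f || out K f r s e) with
  | true =>
    rw [cond_true]
    unfold tm
    rw [if_neg]
    rintro ⟨hD, hX, hB, hB'⟩
    have hef : e ≠ f := by
      rintro rfl
      exact hD.1 rfl
    have hd : dj e f = true := (tab1 e he f hf).1.2 hD
    have hM : M P e f := ⟨hef, Or.inr hX⟩
    have hM' : M P f e := ⟨hef.symm, Or.inr (P.symm _ _ hX)⟩
    rw [Bool.or_eq_true, Bool.or_eq_true, Bool.or_eq_true, Bool.or_eq_true] at hc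
    rcases hc with (((hc | hc) | hc) | hc) | hc
    · exact hef (Nat.eq_of_beq_eq_true hc)
    · rw [hd] at hc; exact absurd hc (by simp)
    · exact kn_sound hK he hf hd hc hX
    · exact out_sound hK he hp hn hf h1 h2 hM hc hB
    · exact out_sound hK hf hr hs he h3 h4 hM' hc hB'
  | false =>
    rw [hc, cond_false] at h
    rw [cond_false]
    cases hc2 : (kx K e f && ins K e p n f && ins K f r s e) with
    | false => rw [hc2, cond_false] at h; omega
    | true =>
      rw [cond_true]
      rw [Bool.or_eq_false_iff, Bool.or_eq_false_iff, Bool.or_eq_false_iff,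
        Bool.or_eq_false_iff] at hc
      obtain ⟨⟨⟨⟨g1, g2⟩, _⟩, _⟩, _⟩ := hc
      have hd : dj e f = true := by simpa using g2
      have hD := (tab1 e he f hf).1.1 hd
      have hef : e ≠ f := by
        rintro rfl
        exact hD.1 rfl
      rw [Bool.and_eq_true, Bool.and_eq_true] at hc2
      obtain ⟨⟨k1, k2⟩, k3⟩ := hc2
      have hX := kx_sound hK he hf hd k1
      have hM : M P e f := ⟨hef, Or.inr hX⟩
      have hM' : M P f e := ⟨hef.symm, Or.inr (P.symm _ _ hX)⟩
      unfold tm
      rw [if_pos]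
      exact ⟨hD, hX, ins_sound hK he hp hn hf h1 h2 hM k2, ins_sound hK hf hr hs he h3 h4 hM' k3⟩

/-- all conditions for a pair of pieces -/
def pr (K e p n f r s : ℕ) : Bool :=
  cond (Nat.beq e f) (ls K e p n r s || ls K e r s p n) (dj e f || nt e p n f || nt f r s e) &&
    Nat.ble (tv K e p n f r s) 1

def wk (K a b c : ℕ) : Bool :=
  Nat.blt a 11 && Nat.blt b 11 && Nat.blt c 11 && km K a b && km K b c && km K c a &&
    km K b a && km K c b && km K a c && pc a c b && pc b a c && pc c b a

/-- the checker for a pair of walks -/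
def ck (K a b c d e f : ℕ) : Bool :=
  wk K a b c && wk K d e f &&
  (pr K a c b d f e && pr K a c b e d f && pr K a c b f e d) &&
  (pr K b a c d f e && pr K b a c e d f && pr K b a c f e d) &&
  (pr K c b a d f e && pr K c b a e d f && pr K c b a f e d) &&
  Nat.beq ((tv K a c b d f e + tv K a c b e d f + tv K a c b f e d +
    (tv K b a c d f e + tv K b a c e d f + tv K b a c f e d) +
    (tv K c b a d f e + tv K c b a e d f + tv K c b a f e d)) % 2) 1

end Pool.FFB
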